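import Pool.Agent.H7.AG.Low01
import Pool.Agent.H7.AF.Fin

/-! The mean square over all scales. -/

open MeasureTheory Filter Topology Real

namespace Pool.Agent.H7.AG

open Pool.Agent.H7.PS Pool.Agent.H7.LH Pool.Agent.H7.AC Pool.Agent.H7.AD

/-- the short scales -/
theorem J01 : Tendsto (fun T => Jw 0 1 T) atTop (𝓝 (1 / 2)) := by
  obtain ⟨C1, hC1, hup⟩ := H370.lam_sq_sum
  obtain ⟨C2, hC2, hlo⟩ := H370.A2.lam_sq_lower
  have tL : Tendsto (fun T : ℝ => 1 / Real.log T) atTop (𝓝 0) :=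
    tendsto_const_nhds.div_atTop Real.tendsto_log_atTop
  have tT : Tendsto (fun T : ℝ => 1 / T) atTop (𝓝 0) := tendsto_const_nhds.div_atTop tendsto_id
  have g1 : Tendsto (fun T : ℝ => (fun u : ℝ => (1 - u) * ((1 - u) ^ 2 / 2 - C2 * (u + u ^ 2)) - u)
      (1 / Real.log T)) atTop (𝓝 (1 / 2)) := by
    have hc : Continuous (fun u : ℝ => (1 - u) * ((1 - u) ^ 2 / 2 - C2 * (u + u ^ 2)) - u) := by
      fun_prop
    have h1 := (hc.tendsto 0).comp tL
    have e : (1 - (0 : ℝ)) * ((1 - 0) ^ 2 / 2 - C2 * (0 + 0 ^ 2)) - 0 = 1 / 2 := by norm_num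
    have h2 : Tendsto (fun T : ℝ => (fun u : ℝ => (1 - u) * ((1 - u) ^ 2 / 2 -
        C2 * (u + u ^ 2)) - u) (1 / Real.log T)) atTop
        (𝓝 ((1 - (0 : ℝ)) * ((1 - 0) ^ 2 / 2 - C2 * (0 + 0 ^ 2)) - 0)) := h1
    rwa [e] at h2
  have g2 : Tendsto (fun T : ℝ => (fun u : ℝ => 1 / 2 + C1 * (u + u ^ 2) + u ^ 2)
      (1 / Real.log T) + 17 * (1 / T)) atTop (𝓝 (1 / 2)) := by
    have hc : Continuous (fun u : ℝ => 1 / 2 + C1 * (u + u ^ 2) + u ^ 2) := by
      fun_prop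
    have := ((hc.tendsto 0).comp tL).add (tT.const_mul 17)
    norm_num at this ⊢
    exact this
  refine tendsto_of_tendsto_of_tendsto_of_le_of_le' g1 g2 ?_ ?_
  · filter_upwards [eventually_ge_atTop 3, Real.tendsto_log_atTop.eventually_gt_atTop 1]
      with T hT3 hL1
    have hT : 1 < T := by linarith
    have hTp : 0 < T := by linarith
    have hL : 0 < Real.log T := by linarith
    obtain ⟨N, hN⟩ : ∃ N, N = ⌊T⌋₊ := ⟨_, rfl⟩
    have hNT : (N : ℝ) ≤ T := by rw [hN]; exact Nat.floor_le hTp.le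
    have hTN : T < N + 1 := by rw [hN]; exact Nat.lt_floor_add_one T
    have hN1 : 1 ≤ N := by rw [hN]; exact (Nat.one_le_floor_iff T).2 hT.le
    have hN1' : (1 : ℝ) ≤ N := by exact_mod_cast hN1
    obtain ⟨L, hLd⟩ : ∃ L, L = Real.log T := ⟨_, rfl⟩
    have hlN : L - 1 ≤ Real.log N := by
      have h1 : T / 2 ≤ N := by linarith
      have h2 := Real.log_le_log (by positivity) h1
      rw [Real.log_div hTp.ne' (by norm_num)] at h2
      have h3 := Real.log_two_lt_d9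
      rw [hLd]
      linarith
    have hlN2 : Real.log N ≤ L := by
      rw [hLd]
      exact Real.log_le_log (by linarith) hNT
    rw [← hLd] at hL1 hL
    have hS : (L - 1) ^ 2 / 2 - C2 * (L + 1) ≤ S2 N := by
      have h1 := hlo N hN1
      have h2 : (L - 1) ^ 2 ≤ Real.log N ^ 2 := pow_le_pow_left₀ (by linarith) hlN 2
      have h3 : C2 * (Real.log N + 1) ≤ C2 * (L + 1) :=
        mul_le_mul_of_nonneg_left (by linarith) hC2
      unfold S2
      linarith
    have hu0 : 0 < 1 / L := by positivity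
    have hu1 : 1 / L < 1 := by rw [div_lt_one hL]; exact hL1
    have hlow := int_low hT hu0 hu1 hN1 hNT
    have hmono : ∫ x in (1 : ℝ)..N, Dx T x ^ 2 / x ^ 2 ≤ ∫ x in (1 : ℝ)..T, Dx T x ^ 2 / x ^ 2 := by
      rw [← intervalIntegral.integral_add_adjacent_intervals (D_ii hT le_rfl hN1' hNT)
        (D_ii hT hN1' hNT le_rfl)]
      have : 0 ≤ ∫ x in (N : ℝ)..T, Dx T x ^ 2 / x ^ 2 :=
        intervalIntegral.integral_nonneg hNT fun x _ => by positivity
      linarith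
    unfold Jw
    rw [Real.rpow_zero, Real.rpow_one, ← hLd]
    show (1 - 1 / L) * ((1 - 1 / L) ^ 2 / 2 - C2 * (1 / L + (1 / L) ^ 2)) - 1 / L ≤ _
    calc (1 - 1 / L) * ((1 - 1 / L) ^ 2 / 2 - C2 * (1 / L + (1 / L) ^ 2)) - 1 / L =
        (1 - 1 / L) * (((L - 1) ^ 2 / 2 - C2 * (L + 1)) / L ^ 2) - 1 / L := by
          field_simp
      _ ≤ (1 - 1 / L) * (S2 N / L ^ 2) - 1 / L := by
          have : (1 - 1 / L) * (((L - 1) ^ 2 / 2 - C2 * (L + 1)) / L ^ 2) ≤
              (1 - 1 / L) * (S2 N / L ^ 2) :=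
            mul_le_mul_of_nonneg_left (div_le_div_of_nonneg_right hS (by positivity)) (by linarith)
          linarith
      _ = T / L ^ 2 * ((1 - 1 / L) * (S2 N / T) - 1 / (1 / L) * (1 / T)) := by
          field_simp
      _ ≤ _ := mul_le_mul_of_nonneg_left (hlow.trans hmono) (by positivity)
  · filter_upwards [eventually_ge_atTop 3, Real.tendsto_log_atTop.eventually_gt_atTop 1]
      with T hT3 hL1
    have hT : 1 < T := by linarith
    have hTp : 0 < T := by linarith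
    have hL : 0 < Real.log T := by linarith
    obtain ⟨N, hN⟩ : ∃ N, N = ⌊T⌋₊ := ⟨_, rfl⟩
    have hNT : (N : ℝ) ≤ T := by rw [hN]; exact Nat.floor_le hTp.le
    have hTN : T < N + 1 := by rw [hN]; exact Nat.lt_floor_add_one T
    have hN1 : 1 ≤ N := by rw [hN]; exact (Nat.one_le_floor_iff T).2 hT.le
    have hN1' : (1 : ℝ) ≤ N := by exact_mod_cast hN1
    have hS : S2 N ≤ Real.log T ^ 2 / 2 + C1 * (Real.log T + 1) := by
      unfold S2
      rw [hN]
      exact hup T hT.le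
    have h1 := int_up hT hN1 hNT
    have h2 := int_end hT hN1 hNT hTN
    have hlog : Real.log (T + 1) ≤ 2 * Real.log T := by
      have : Real.log (T + 1) ≤ Real.log (T ^ 2) := Real.log_le_log (by linarith) (by nlinarith)
      rwa [Real.log_pow] at this
    have hlog0 : 0 ≤ Real.log (T + 1) := Real.log_nonneg (by linarith)
    obtain ⟨L, hLd⟩ : ∃ L, L = Real.log T := ⟨_, rfl⟩
    rw [← hLd] at hL1 hL hS hlog
    have h3 : Real.log (T + 1) ^ 2 / (N : ℝ) ^ 2 ≤ 16 * L ^ 2 / T ^ 2 := by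
      rw [div_le_div_iff₀ (by positivity) (by positivity)]
      have e1 : Real.log (T + 1) ^ 2 ≤ (2 * L) ^ 2 := pow_le_pow_left₀ hlog0 hlog 2
      have e2 : (T / 2) ^ 2 ≤ (N : ℝ) ^ 2 := pow_le_pow_left₀ (by positivity) (by linarith) 2
      calc Real.log (T + 1) ^ 2 * T ^ 2 ≤ (2 * L) ^ 2 * T ^ 2 := by gcongr
        _ = 16 * L ^ 2 * (T / 2) ^ 2 := by ring
        _ ≤ _ := by gcongr
    have h4 : ∫ x in (1 : ℝ)..T, Dx T x ^ 2 / x ^ 2 ≤
        (L ^ 2 / 2 + C1 * (L + 1)) / T + 1 / T + (16 * L ^ 2 / T ^ 2 + 1 / T ^ 2) := by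
      rw [← intervalIntegral.integral_add_adjacent_intervals (D_ii hT le_rfl hN1' hNT)
        (D_ii hT hN1' hNT le_rfl)]
      have := div_le_div_of_nonneg_right hS hTp.le
      linarith
    unfold Jw
    rw [Real.rpow_zero, Real.rpow_one, ← hLd]
    show _ ≤ 1 / 2 + C1 * (1 / L + (1 / L) ^ 2) + (1 / L) ^ 2 + 17 * (1 / T)
    calc T / L ^ 2 * ∫ x in (1 : ℝ)..T, Dx T x ^ 2 / x ^ 2 ≤
        T / L ^ 2 * ((L ^ 2 / 2 + C1 * (L + 1)) / T + 1 / T +
          (16 * L ^ 2 / T ^ 2 + 1 / T ^ 2)) := mul_le_mul_of_nonneg_left h4 (by positivity)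
      _ = 1 / 2 + C1 * (1 / L + (1 / L) ^ 2) + (1 / L) ^ 2 + 16 * (1 / T) +
          1 / L ^ 2 * (1 / T) := by
          field_simp
          ring
      _ ≤ _ := by
          have h5 : 1 / L ^ 2 ≤ 1 := by
            rw [div_le_one (by positivity)]
            nlinarith
          have h6 : 1 / L ^ 2 * (1 / T) ≤ 1 * (1 / T) := mul_le_mul_of_nonneg_right h5 (by positivity)
          linarith

lemma Jw_nonneg {a b T : ℝ} (hT : 1 < T) (hab : a ≤ b) : 0 ≤ Jw a b T := by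
  unfold Jw
  have hL : 0 < Real.log T := Real.log_pos hT
  have hTp : 0 < T := by linarith
  exact mul_nonneg (by positivity) (intervalIntegral.integral_nonneg
    (Real.rpow_le_rpow_of_exponent_le hT.le hab) fun x _ => by positivity)

lemma Jw_mono {a b T : ℝ} (hT : 1 < T) (ha : 0 ≤ a) (hab : a ≤ b) : Jw 0 a T ≤ Jw 0 b T := by
  rw [Jw_add hT ha hab]
  linarith [Jw_nonneg hT hab]

lemma J0b (RH : RiemannHypothesis) (h : QQ) {b : ℝ} (hb : 1 ≤ b) :
    Tendsto (fun T => Jw 0 b T) atTop (𝓝 (b - 1 / 2)) := by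
  rcases eq_or_lt_of_le hb with h1 | h1
  · rw [← h1]
    convert J01 using 2
    norm_num
  · have h2 := J01.add (Pool.Agent.H7.AF.Jw_lim RH h le_rfl h1)
    have e : (1 / 2 : ℝ) + (b - 1) = b - 1 / 2 := by ring
    rw [e] at h2
    refine h2.congr' ?_
    filter_upwards [eventually_gt_atTop 1] with T hT
    exact (Jw_add hT zero_le_one hb).symm

/-- uniformity -/
theorem unif (RH : RiemannHypothesis) (h : QQ) {B η : ℝ} (hη : 0 < η) :
    ∀ᶠ T : ℝ in atTop, ∀ b : ℝ, 1 ≤ b → b ≤ B → |Jw 0 b T - (b - 1 / 2)| ≤ η := by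
  obtain ⟨d, hd⟩ : ∃ d, d = η / 2 := ⟨_, rfl⟩
  have hd0 : 0 < d := by rw [hd]; positivity
  obtain ⟨M, hM⟩ := exists_nat_gt ((B - 1) / d)
  have h1 : ∀ i ∈ Finset.range (M + 2), ∀ᶠ T : ℝ in atTop,
      |Jw 0 (1 + i * d) T - ((1 + i * d) - 1 / 2)| ≤ d := by
    intro i _
    have hi : (1 : ℝ) ≤ 1 + i * d := by
      have : 0 ≤ (i : ℝ) * d := by positivity
      linarith
    have h2 := (Metric.tendsto_nhds.1 (J0b RH h hi)) d hd0
    filter_upwards [h2] with T h3
    rw [Real.dist_eq] at h3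
    exact h3.le
  have h2 := (Finset.range (M + 2)).eventually_all.2 h1
  filter_upwards [h2, eventually_gt_atTop 1] with T h3 hT b hb1 hbB
  obtain ⟨i, hi⟩ : ∃ i, i = ⌊(b - 1) / d⌋₊ := ⟨_, rfl⟩
  have hq : 0 ≤ (b - 1) / d := div_nonneg (by linarith) hd0.le
  have i1 : (i : ℝ) * d ≤ b - 1 := by
    have : (i : ℝ) ≤ (b - 1) / d := by rw [hi]; exact Nat.floor_le hq
    rwa [le_div_iff₀ hd0] at this
  have i2 : b - 1 < ((i : ℝ) + 1) * d := by
    have : (b - 1) / d < (i : ℝ) + 1 := by rw [hi]; exact Nat.lt_floor_add_one _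
    rwa [div_lt_iff₀ hd0] at this
  have i3 : i < M := by
    have h4 : (b - 1) / d ≤ (B - 1) / d := div_le_div_of_nonneg_right (by linarith) hd0.le
    have h5 : (i : ℝ) < M := by
      have : (i : ℝ) ≤ (b - 1) / d := by rw [hi]; exact Nat.floor_le hq
      linarith
    exact_mod_cast h5
  have a1 := abs_le.1 (h3 i (Finset.mem_range.2 (by omega)))
  have a2 := abs_le.1 (h3 (i + 1) (Finset.mem_range.2 (by omega)))
  push_cast at a2
  have hi0 : 0 ≤ (i : ℝ) * d := by positivity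
  have m1 := Jw_mono (a := 1 + i * d) (b := b) hT (by linarith) (by linarith)
  have m2 := Jw_mono (a := b) (b := 1 + (i + 1) * d) hT (by linarith) (by linarith)
  rw [abs_le]
  constructor
  · nlinarith [a1.1]
  · nlinarith [a2.2]

end Pool.Agent.H7.AG
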