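import Pool.Agent.H7.AC.Win
import Pool.Graph.R_seed8.H345R2.A2.VVl

/-! The short scales: each interval contains at most one integer. -/

open MeasureTheory Filter Topology Real

namespace Pool.Agent.H7.AG

open Pool.Agent.H7.PS Pool.Agent.H7.LH Pool.Agent.H7.AC

lemma Dx_cases {T x : ℝ} {m : ℕ} (hT : 1 < T) (h1 : (m : ℝ) ≤ x) (h2 : x < m + 1)
    (h3 : x ≤ T) : (x + x / T < m + 1 → Dx T x = -(x / T)) ∧
      (m + 1 ≤ x + x / T → Dx T x = ArithmeticFunction.vonMangoldt (m + 1) - x / T) := by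
  have hTp : 0 < T := by linarith
  have hx0 : 0 ≤ x := (Nat.cast_nonneg m).trans h1
  have hxT : 0 ≤ x / T := by positivity
  have hxT1 : x / T ≤ 1 := by rw [div_le_one hTp]; exact h3
  have f1 : ⌊x⌋₊ = m := (Nat.floor_eq_iff hx0).2 ⟨h1, h2⟩
  constructor
  · intro h
    have f2 : ⌊x + x / T⌋₊ = m := (Nat.floor_eq_iff (by positivity)).2 ⟨by linarith, h⟩
    unfold Dx Chebyshev.psi
    rw [f1, f2]
    ring
  · intro h
    have f2 : ⌊x + x / T⌋₊ = m + 1 := (Nat.floor_eq_iff (by positivity)).2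
      ⟨by push_cast; linarith, by push_cast; linarith⟩
    unfold Dx Chebyshev.psi
    rw [f1, f2, Finset.sum_Ioc_succ_top (Nat.zero_le m)]
    ring

lemma D_ii {T a b : ℝ} (hT : 1 < T) (ha : 1 ≤ a) (hab : a ≤ b) (hb : b ≤ T) :
    IntervalIntegrable (fun x => Dx T x ^ 2 / x ^ 2) volume a b := by
  have h := Dsq_int (a := 0) (b := 1) hT le_rfl
  rw [Real.rpow_zero, Real.rpow_one] at h
  rw [intervalIntegrable_iff_integrableOn_Ioc_of_le hab]
  exact h.mono_set (Set.Ioc_subset_Ioc ha hb)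

/-- the point of the jump -/
lemma cpt {T : ℝ} {m : ℕ} (hT : 1 < T) (hm : 1 ≤ m) (hmT : (m : ℝ) + 1 ≤ T) :
    (m : ℝ) ≤ (m + 1) * T / (T + 1) ∧ (m + 1) * T / (T + 1) ≤ (m : ℝ) + 1 := by
  have hTp : 0 < T := by linarith
  have hm1 : (1 : ℝ) ≤ m := by exact_mod_cast hm
  constructor
  · rw [le_div_iff₀ (by linarith)]
    nlinarith
  · rw [div_le_iff₀ (by linarith)]
    nlinarith

lemma int_inv {a b : ℝ} (ha : 0 < a) (hab : a ≤ b) : ∫ x in a..b, 1 / x ^ 2 = 1 / a - 1 / b := by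
  have h0 : ∀ x ∈ Set.uIcc a b, x ≠ 0 := fun x hx => by
    rw [Set.uIcc_of_le hab] at hx
    linarith [hx.1]
  have h1 : ∀ x ∈ Set.uIcc a b, HasDerivAt (fun x : ℝ => -x⁻¹) (1 / x ^ 2) x := fun x hx => by
    have := ((hasDerivAt_inv (h0 x hx)).neg).congr_deriv
      (show -(-(x ^ 2)⁻¹) = 1 / x ^ 2 by rw [one_div, neg_neg])
    exact this
  rw [intervalIntegral.integral_eq_sub_of_hasDerivAt h1]
  · rw [one_div, one_div]
    ring
  · refine ContinuousOn.intervalIntegrable fun x hx => ?_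
    have := h0 x hx
    exact (ContinuousAt.div continuousAt_const (continuousAt_id.pow 2)
      (pow_ne_zero 2 this)).continuousWithinAt

lemma inv_ii {a b : ℝ} (ha : 0 < a) (hab : a ≤ b) :
    IntervalIntegrable (fun x : ℝ => 1 / x ^ 2) volume a b := by
  refine ContinuousOn.intervalIntegrable fun x hx => ?_
  rw [Set.uIcc_of_le hab] at hx
  have : x ≠ 0 := by linarith [hx.1]
  exact (ContinuousAt.div continuousAt_const (continuousAt_id.pow 2)
      (pow_ne_zero 2 this)).continuousWithinAt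

/-- the value on one interval -/
lemma cval {T : ℝ} {m : ℕ} (hT : 1 < T) : 1 / ((m + 1) * T / (T + 1)) - 1 / ((m : ℝ) + 1) =
    1 / (m + 1) / T := by
  have hTp : 0 < T := by linarith
  have : (0 : ℝ) < (m : ℝ) + 1 := by positivity
  field_simp
  ring

lemma piece_up {T : ℝ} {m : ℕ} (hT : 1 < T) (hm : 1 ≤ m) (hmT : (m : ℝ) + 1 ≤ T) :
    ∫ x in (m : ℝ)..(m + 1), Dx T x ^ 2 / x ^ 2 ≤
      (ArithmeticFunction.vonMangoldt (m + 1)) ^ 2 / (m + 1) / T + 1 / T ^ 2 := by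
  have hTp : 0 < T := by linarith
  have hm1 : (1 : ℝ) ≤ m := by exact_mod_cast hm
  obtain ⟨c1, c2⟩ := cpt hT hm hmT
  have cv := cval (m := m) hT
  obtain ⟨c, hc⟩ : ∃ c, c = (m + 1) * T / (T + 1) := ⟨_, rfl⟩
  rw [← hc] at c1 c2 cv
  have hcx : ∀ x : ℝ, x < c ↔ x + x / T < m + 1 := fun x => by
    rw [hc, lt_div_iff₀ (by linarith)]
    have : x + x / T = x * (T + 1) / T := by field_simp
    rw [this, div_lt_iff₀ hTp]
  obtain ⟨l, hl⟩ : ∃ l, l = ArithmeticFunction.vonMangoldt (m + 1) := ⟨_, rfl⟩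
  have hl0 : 0 ≤ l := by rw [hl]; exact ArithmeticFunction.vonMangoldt_nonneg
  rw [← hl]
  have i1 := D_ii hT hm1 c1 (by linarith)
  have i2 := D_ii hT (hm1.trans c1) c2 (by linarith)
  rw [← intervalIntegral.integral_add_adjacent_intervals i1 i2]
  have b1 : ∫ x in (m : ℝ)..c, Dx T x ^ 2 / x ^ 2 ≤ ∫ _ in (m : ℝ)..c, 1 / T ^ 2 := by
    refine intervalIntegral.integral_mono_on_of_le_Ioo c1 i1 (by simp) fun x hx => ?_
    have hx0 : 0 < x := by linarith [hx.1]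
    have h := (Dx_cases (m := m) hT hx.1.le (by linarith [hx.2]) (by linarith [hx.2])).1
      ((hcx x).1 hx.2)
    rw [h]
    refine le_of_eq ?_
    field_simp
  have b2 : ∫ x in c..(m + 1), Dx T x ^ 2 / x ^ 2 ≤
      ∫ x in c..(m + 1), (l ^ 2 * (1 / x ^ 2) + 1 / T ^ 2) := by
    refine intervalIntegral.integral_mono_on_of_le_Ioo c2 i2
      (((inv_ii (by linarith) c2).const_mul _).add (by simp)) fun x hx => ?_
    have hx0 : 0 < x := by linarith [hx.1]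
    have h := (Dx_cases (m := m) hT (by linarith [hx.1]) hx.2 (by linarith [hx.2])).2
      (not_lt.1 fun h => not_lt.2 hx.1.le ((hcx x).2 h))
    rw [h, ← hl, div_le_iff₀ (by positivity)]
    have e : (l ^ 2 * (1 / x ^ 2) + 1 / T ^ 2) * x ^ 2 = l ^ 2 + (x / T) ^ 2 := by
      field_simp
    rw [e]
    have : 0 ≤ l * (x / T) := by positivity
    nlinarith
  rw [intervalIntegral.integral_add ((inv_ii (by linarith) c2).const_mul _) (by simp),
    intervalIntegral.integral_const_mul, int_inv (by linarith) c2, cv,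
    intervalIntegral.integral_const, smul_eq_mul] at b2
  rw [intervalIntegral.integral_const, smul_eq_mul] at b1
  calc _ ≤ (c - m) * (1 / T ^ 2) + (l ^ 2 * (1 / (m + 1) / T) + (m + 1 - c) * (1 / T ^ 2)) :=
        add_le_add b1 b2
    _ = _ := by ring

lemma piece_low {T η : ℝ} {m : ℕ} (hT : 1 < T) (hη : 0 < η) (hη1 : η < 1) (hm : 1 ≤ m)
    (hmT : (m : ℝ) + 1 ≤ T) :
    (1 - η) * ((ArithmeticFunction.vonMangoldt (m + 1)) ^ 2 / (m + 1) / T) - 1 / η * (1 / T ^ 2) ≤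
      ∫ x in (m : ℝ)..(m + 1), Dx T x ^ 2 / x ^ 2 := by
  have hTp : 0 < T := by linarith
  have hm1 : (1 : ℝ) ≤ m := by exact_mod_cast hm
  obtain ⟨c1, c2⟩ := cpt hT hm hmT
  have cv := cval (m := m) hT
  obtain ⟨c, hc⟩ : ∃ c, c = (m + 1) * T / (T + 1) := ⟨_, rfl⟩
  rw [← hc] at c1 c2 cv
  have hcx : ∀ x : ℝ, x < c ↔ x + x / T < m + 1 := fun x => by
    rw [hc, lt_div_iff₀ (by linarith)]
    have : x + x / T = x * (T + 1) / T := by field_simp
    rw [this, div_lt_iff₀ hTp]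
  obtain ⟨l, hl⟩ : ∃ l, l = ArithmeticFunction.vonMangoldt (m + 1) := ⟨_, rfl⟩
  have hl0 : 0 ≤ l := by rw [hl]; exact ArithmeticFunction.vonMangoldt_nonneg
  rw [← hl]
  have i1 := D_ii hT hm1 c1 (by linarith)
  have i2 := D_ii hT (hm1.trans c1) c2 (by linarith)
  rw [← intervalIntegral.integral_add_adjacent_intervals i1 i2]
  have b1 : 0 ≤ ∫ x in (m : ℝ)..c, Dx T x ^ 2 / x ^ 2 :=
    intervalIntegral.integral_nonneg c1 fun x _ => by positivity
  have b2 : ∫ x in c..(m + 1), ((1 - η) * l ^ 2 * (1 / x ^ 2) + -(1 / η * (1 / T ^ 2))) ≤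
      ∫ x in c..(m + 1), Dx T x ^ 2 / x ^ 2 := by
    refine intervalIntegral.integral_mono_on_of_le_Ioo c2
      (((inv_ii (by linarith) c2).const_mul _).add (by simp)) i2 fun x hx => ?_
    have hx0 : 0 < x := by linarith [hx.1]
    have h := (Dx_cases (m := m) hT (by linarith [hx.1]) hx.2 (by linarith [hx.2])).2
      (not_lt.1 fun h => not_lt.2 hx.1.le ((hcx x).2 h))
    rw [h, ← hl, le_div_iff₀ (by positivity)]
    have e : ((1 - η) * l ^ 2 * (1 / x ^ 2) + -(1 / η * (1 / T ^ 2))) * x ^ 2 =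
        (1 - η) * l ^ 2 - 1 / η * (x / T) ^ 2 := by
      field_simp
      ring
    rw [e]
    obtain ⟨g, hg⟩ : ∃ g, g = x / T := ⟨_, rfl⟩
    rw [← hg]
    have h1 : 0 ≤ η * (l - g / η) ^ 2 := by positivity
    have h2 : η * (l - g / η) ^ 2 = η * l ^ 2 - 2 * l * g + 1 / η * g ^ 2 := by
      field_simp
      ring
    nlinarith [sq_nonneg g]
  rw [intervalIntegral.integral_add ((inv_ii (by linarith) c2).const_mul _) (by simp),
    intervalIntegral.integral_const_mul, int_inv (by linarith) c2, cv,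
    intervalIntegral.integral_const, smul_eq_mul] at b2
  have b3 : (m + 1 - c) * (1 / η * (1 / T ^ 2)) ≤ 1 * (1 / η * (1 / T ^ 2)) :=
    mul_le_mul_of_nonneg_right (by linarith) (by positivity)
  have b4 : (1 - η) * l ^ 2 * (1 / (m + 1) / T) = (1 - η) * (l ^ 2 / (m + 1) / T) := by ring
  linarith

/-- the sum over the integers -/
noncomputable def S2 (N : ℕ) : ℝ := ∑ n ∈ Finset.Icc 1 N, (ArithmeticFunction.vonMangoldt n) ^ 2 / n

lemma S2_eq {N : ℕ} (hN : 1 ≤ N) : S2 N =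
    ∑ m ∈ Finset.Ico 1 N, (ArithmeticFunction.vonMangoldt (m + 1)) ^ 2 / ((m : ℝ) + 1) := by
  unfold S2
  induction N, hN using Nat.le_induction with
  | base => simp
  | succ N hN ih =>
    rw [Finset.sum_Icc_succ_top (by omega), ih, Finset.sum_Ico_succ_top hN]
    push_cast
    rfl

lemma sum_int {T : ℝ} {N : ℕ} (hT : 1 < T) (hN : 1 ≤ N) (hNT : (N : ℝ) ≤ T) :
    ∑ m ∈ Finset.Ico 1 N, ∫ x in (m : ℝ)..(m + 1), Dx T x ^ 2 / x ^ 2 =
      ∫ x in (1 : ℝ)..N, Dx T x ^ 2 / x ^ 2 := by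
  have h := intervalIntegral.sum_integral_adjacent_intervals_Ico (a := fun k : ℕ => (k : ℝ))
    (f := fun x => Dx T x ^ 2 / x ^ 2) (μ := volume) hN (fun k hk => by
      have h1 : (1 : ℝ) ≤ k := by exact_mod_cast hk.1
      have h2 : ((k + 1 : ℕ) : ℝ) ≤ N := by exact_mod_cast hk.2
      exact D_ii hT h1 (by push_cast; linarith) (h2.trans hNT))
  push_cast at h
  exact h

lemma int_up {T : ℝ} {N : ℕ} (hT : 1 < T) (hN : 1 ≤ N) (hNT : (N : ℝ) ≤ T) :
    ∫ x in (1 : ℝ)..N, Dx T x ^ 2 / x ^ 2 ≤ S2 N / T + 1 / T := by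
  have hTp : 0 < T := by linarith
  rw [← sum_int hT hN hNT]
  have h1 : ∀ m ∈ Finset.Ico 1 N, ∫ x in (m : ℝ)..(m + 1), Dx T x ^ 2 / x ^ 2 ≤
      (ArithmeticFunction.vonMangoldt (m + 1)) ^ 2 / (m + 1) / T + 1 / T ^ 2 := by
    intro m hm
    have hm2 := Finset.mem_Ico.1 hm
    have h2 : (m : ℝ) + 1 ≤ N := by exact_mod_cast hm2.2
    exact piece_up hT hm2.1 (h2.trans hNT)
  refine (Finset.sum_le_sum h1).trans ?_
  rw [Finset.sum_add_distrib, ← Finset.sum_div, ← S2_eq hN, Finset.sum_const, Nat.card_Ico,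
    nsmul_eq_mul, Nat.cast_sub hN]
  have h3 : ((N : ℝ) - (1 : ℕ)) * (1 / T ^ 2) ≤ 1 / T := by
    have : ((N : ℝ) - (1 : ℕ)) * (1 / T ^ 2) ≤ T * (1 / T ^ 2) := by
      refine mul_le_mul_of_nonneg_right ?_ (by positivity)
      push_cast
      linarith
    refine this.trans (le_of_eq ?_)
    field_simp
  linarith

lemma int_low {T η : ℝ} {N : ℕ} (hT : 1 < T) (hη : 0 < η) (hη1 : η < 1) (hN : 1 ≤ N)
    (hNT : (N : ℝ) ≤ T) :
    (1 - η) * (S2 N / T) - 1 / η * (1 / T) ≤ ∫ x in (1 : ℝ)..N, Dx T x ^ 2 / x ^ 2 := by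
  have hTp : 0 < T := by linarith
  rw [← sum_int hT hN hNT]
  have h1 : ∀ m ∈ Finset.Ico 1 N, (1 - η) * ((ArithmeticFunction.vonMangoldt (m + 1)) ^ 2 /
      (m + 1) / T) - 1 / η * (1 / T ^ 2) ≤ ∫ x in (m : ℝ)..(m + 1), Dx T x ^ 2 / x ^ 2 := by
    intro m hm
    have hm2 := Finset.mem_Ico.1 hm
    have h2 : (m : ℝ) + 1 ≤ N := by exact_mod_cast hm2.2
    exact piece_low hT hη hη1 hm2.1 (h2.trans hNT)
  refine le_trans ?_ (Finset.sum_le_sum h1)
  rw [Finset.sum_sub_distrib, ← Finset.mul_sum, ← Finset.sum_div, ← S2_eq hN, Finset.sum_const,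
    Nat.card_Ico, nsmul_eq_mul, Nat.cast_sub hN]
  have h3 : ((N : ℝ) - (1 : ℕ)) * (1 / η * (1 / T ^ 2)) ≤ 1 / η * (1 / T) := by
    have : ((N : ℝ) - (1 : ℕ)) * (1 / η * (1 / T ^ 2)) ≤ T * (1 / η * (1 / T ^ 2)) := by
      refine mul_le_mul_of_nonneg_right ?_ (by positivity)
      push_cast
      linarith
    refine this.trans (le_of_eq ?_)
    field_simp
  linarith

/-- the last piece -/
lemma int_end {T : ℝ} {N : ℕ} (hT : 1 < T) (hN : 1 ≤ N) (hNT : (N : ℝ) ≤ T)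
    (hTN : T < N + 1) : ∫ x in (N : ℝ)..T, Dx T x ^ 2 / x ^ 2 ≤
      Real.log (T + 1) ^ 2 / (N : ℝ) ^ 2 + 1 / T ^ 2 := by
  have hTp : 0 < T := by linarith
  have hN1 : (1 : ℝ) ≤ N := by exact_mod_cast hN
  have h1 : ∫ x in (N : ℝ)..T, Dx T x ^ 2 / x ^ 2 ≤
      ∫ _ in (N : ℝ)..T, (Real.log (T + 1) ^ 2 / (N : ℝ) ^ 2 + 1 / T ^ 2) := by
    refine intervalIntegral.integral_mono_on_of_le_Ioo hNT (D_ii hT hN1 hNT le_rfl) (by simp)
      fun x hx => ?_
    have hx0 : 0 < x := by linarith [hx.1]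
    have hc := Dx_cases (m := N) hT hx.1.le (by linarith [hx.2]) hx.2.le
    obtain ⟨l, hl⟩ : ∃ l, l = ArithmeticFunction.vonMangoldt (N + 1) := ⟨_, rfl⟩
    have hl0 : 0 ≤ l := by rw [hl]; exact ArithmeticFunction.vonMangoldt_nonneg
    have hl1 : l ≤ Real.log (T + 1) := by
      rw [hl]
      refine ArithmeticFunction.vonMangoldt_le_log.trans (Real.log_le_log (by positivity) ?_)
      push_cast
      linarith
    have hD : Dx T x ^ 2 ≤ l ^ 2 + (x / T) ^ 2 := by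
      rcases lt_or_ge (x + x / T) (N + 1) with h | h
      · rw [hc.1 h]
        nlinarith [sq_nonneg l]
      · rw [hc.2 h, ← hl]
        have : 0 ≤ l * (x / T) := by positivity
        nlinarith
    rw [div_le_iff₀ (by positivity), add_mul]
    refine hD.trans (add_le_add ?_ (le_of_eq (by field_simp)))
    have h2 : (N : ℝ) ^ 2 ≤ x ^ 2 := pow_le_pow_left₀ (by linarith) hx.1.le 2
    have h3 : l ^ 2 ≤ Real.log (T + 1) ^ 2 := pow_le_pow_left₀ hl0 hl1 2
    calc l ^ 2 ≤ Real.log (T + 1) ^ 2 := h3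
      _ = Real.log (T + 1) ^ 2 / (N : ℝ) ^ 2 * (N : ℝ) ^ 2 := by field_simp
      _ ≤ _ := mul_le_mul_of_nonneg_left h2 (by positivity)
  refine h1.trans ?_
  rw [intervalIntegral.integral_const, smul_eq_mul]
  have h4 : 0 ≤ Real.log (T + 1) ^ 2 / (N : ℝ) ^ 2 + 1 / T ^ 2 := by positivity
  have h5 : T - N ≤ 1 := by linarith
  nlinarith

end Pool.Agent.H7.AG
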